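import Pool.Agent.U485.SM.Stm2

set_option autoImplicit false

/-! # Project HT-2, package CO2: the twin prime constant and the singular series of `{0, d}`

The lemmas on the product `cc` are copied from `Pool/Agent/U839/Gb/Nt.lean`. -/

open Finset Filter Topology

namespace Pool.Agent.U864.HT

open Pool.Agent.U485.SM

noncomputable def gg (p : ℕ) : ℝ := 1 - 1 / ((p : ℝ) - 1) ^ 2
noncomputable def hh (p : ℕ) : ℝ := ((p : ℝ) - 1) / (p - 2)
noncomputable def kk (p : ℕ) : ℝ := (1 - 1 / (p : ℝ))⁻¹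

/-- the odd primes up to `t` -/
def Pt (t : ℕ) : Finset ℕ := (Icc 3 t).filter Nat.Prime

theorem mem_Pt {t p : ℕ} : p ∈ Pt t ↔ p.Prime ∧ 3 ≤ p ∧ p ≤ t := by
  unfold Pt
  rw [mem_filter, mem_Icc]
  tauto

noncomputable def cc (t : ℕ) : ℝ := ∏ p ∈ Pt t, gg p
noncomputable def C2 : ℝ := ⨅ z : ℕ, cc z

theorem gg_pos {p : ℕ} (hp : 3 ≤ p) : 0 < gg p := by
  have h : (3 : ℝ) ≤ p := by exact_mod_cast hp
  unfold gg
  rw [sub_pos, div_lt_one (by nlinarith)]
  nlinarith

theorem gg_le {p : ℕ} : gg p ≤ 1 := by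
  unfold gg
  have : 0 ≤ 1 / ((p : ℝ) - 1) ^ 2 := by positivity
  linarith

theorem hh_ge {p : ℕ} (hp : 3 ≤ p) : 1 ≤ hh p := by
  have h : (3 : ℝ) ≤ p := by exact_mod_cast hp
  unfold hh
  rw [le_div_iff₀ (by linarith)]
  linarith

theorem kk_ge {p : ℕ} (hp : 2 ≤ p) : 1 ≤ kk p := by
  have h : (2 : ℝ) ≤ p := by exact_mod_cast hp
  unfold kk
  rw [one_le_inv₀]
  · have : 0 ≤ 1 / (p : ℝ) := by positivity
    linarith
  · rw [sub_pos, div_lt_one (by linarith)]
    linarith

theorem kk_eq {p : ℕ} (hp : 3 ≤ p) : kk p = gg p * hh p := by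
  have h : (3 : ℝ) ≤ p := by exact_mod_cast hp
  have h1 : (p : ℝ) - 1 ≠ 0 := by
    have : 0 < (p : ℝ) - 1 := by linarith
    exact this.ne'
  have h2 : (p : ℝ) - 2 ≠ 0 := by
    have : 0 < (p : ℝ) - 2 := by linarith
    exact this.ne'
  have h3 : (p : ℝ) ≠ 0 := by
    have : 0 < (p : ℝ) := by linarith
    exact this.ne'
  have h4 : kk p = p / (p - 1) := by
    unfold kk
    rw [eq_div_iff h1, inv_mul_eq_iff_eq_mul₀]
    · field_simp
    · have : 1 - 1 / (p : ℝ) = (p - 1) / p := by field_simp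
      rw [this]
      positivity
  rw [h4]
  unfold gg hh
  field_simp
  ring

theorem cc_low (t : ℕ) : 1 / 2 ≤ cc t := by
  have key : ∀ t : ℕ, 2 ≤ t → 1 / 2 * ((t : ℝ) / (t - 1)) ≤ cc t := by
    intro t ht
    induction t, ht using Nat.le_induction with
    | base =>
      have : Pt 2 = ∅ := by
        apply eq_empty_of_forall_notMem
        intro p hp
        rw [mem_Pt] at hp
        omega
      unfold cc
      rw [this, prod_empty]
      norm_num
    | succ t ht ih =>
      have ht2 : (2 : ℝ) ≤ t := by exact_mod_cast ht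
      have h1 : (t : ℝ) - 1 ≠ 0 := by
        have : 0 < (t : ℝ) - 1 := by linarith
        exact this.ne'
      have h0 : (t : ℝ) ≠ 0 := by
        have : 0 < (t : ℝ) := by linarith
        exact this.ne'
      by_cases hp : (t + 1).Prime
      · have e : Pt (t + 1) = insert (t + 1) (Pt t) := by
          ext p
          rw [mem_insert, mem_Pt, mem_Pt]
          constructor
          · rintro ⟨h1, h2, h3⟩
            rcases Nat.lt_or_ge p (t + 1) with h4 | h4
            · right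
              exact ⟨h1, h2, by omega⟩
            · left
              omega
          · rintro (h | ⟨h1, h2, h3⟩)
            · rw [h]
              exact ⟨hp, by omega, le_rfl⟩
            · exact ⟨h1, h2, by omega⟩
        unfold cc at ih ⊢
        rw [e, prod_insert (by rw [mem_Pt]; omega)]
        have h2 : gg (t + 1) = ((t : ℝ) - 1) * (t + 1) / t ^ 2 := by
          unfold gg
          push_cast
          rw [add_sub_cancel_right]
          field_simp
          ring
        have h3 : 1 / 2 * (((t + 1 : ℕ) : ℝ) / (((t + 1 : ℕ) : ℝ) - 1)) =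
            gg (t + 1) * (1 / 2 * ((t : ℝ) / (t - 1))) := by
          rw [h2]
          push_cast
          rw [add_sub_cancel_right]
          field_simp
        rw [h3]
        exact mul_le_mul_of_nonneg_left ih (gg_pos (by omega)).le
      · have e : Pt (t + 1) = Pt t := by
          ext p
          rw [mem_Pt, mem_Pt]
          constructor
          · rintro ⟨h1, h2, h3⟩
            refine ⟨h1, h2, ?_⟩
            rcases Nat.lt_or_ge p (t + 1) with h4 | h4
            · omega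
            · have : p = t + 1 := by omega
              rw [this] at h1
              exact absurd h1 hp
          · rintro ⟨h1, h2, h3⟩
            exact ⟨h1, h2, by omega⟩
        unfold cc at ih ⊢
        rw [e]
        refine le_trans ?_ ih
        push_cast
        rw [add_sub_cancel_right]
        apply mul_le_mul_of_nonneg_left _ (by norm_num)
        rw [div_le_div_iff₀ (by linarith) (by linarith)]
        nlinarith
  rcases Nat.lt_or_ge t 2 with h | h
  · have : Pt t = ∅ := by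
      apply eq_empty_of_forall_notMem
      intro p hp
      rw [mem_Pt] at hp
      omega
    unfold cc
    rw [this, prod_empty]
    norm_num
  · refine le_trans ?_ (key t h)
    have ht2 : (2 : ℝ) ≤ t := by exact_mod_cast h
    have : 1 ≤ (t : ℝ) / (t - 1) := by
      rw [le_div_iff₀ (by linarith)]
      linarith
    linarith

theorem cc_anti : Antitone cc := by
  intro s t hst
  unfold cc
  have hsub : Pt s ⊆ Pt t := by
    intro p hp
    rw [mem_Pt] at hp ⊢
    exact ⟨hp.1, hp.2.1, hp.2.2.trans hst⟩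
  rw [← prod_sdiff hsub]
  have h1 : ∏ p ∈ Pt t \ Pt s, gg p ≤ 1 := by
    apply Finset.prod_le_one
    · intro p hp
      rw [Finset.mem_sdiff, mem_Pt] at hp
      exact (gg_pos hp.1.2.1).le
    · intro p _
      exact gg_le
  have h2 : 0 ≤ ∏ p ∈ Pt s, gg p := by
    apply Finset.prod_nonneg
    intro p hp
    rw [mem_Pt] at hp
    exact (gg_pos hp.2.1).le
  nlinarith

theorem cc_bdd : BddBelow (Set.range cc) := ⟨1 / 2, by
  rintro _ ⟨t, rfl⟩
  exact cc_low t⟩

theorem C2_le (t : ℕ) : C2 ≤ cc t := ciInf_le cc_bdd t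

theorem C2_low : 1 / 2 ≤ C2 := le_ciInf cc_low

theorem cc_le (t : ℕ) : cc t ≤ 1 := by
  unfold cc
  apply Finset.prod_le_one
  · intro p hp
    rw [mem_Pt] at hp
    exact (gg_pos hp.2.1).le
  · intro p _
    exact gg_le

theorem cc_lim : Tendsto cc atTop (𝓝 C2) := tendsto_atTop_ciInf cc_anti cc_bdd


theorem K2_eq : K2 = cc := rfl

theorem mem_Pr {t p : ℕ} : p ∈ Pr t ↔ p.Prime ∧ p ≤ t := by
  unfold Pr
  rw [mem_filter, mem_Icc]
  constructor
  · rintro ⟨⟨_, h1⟩, h2⟩
    exact ⟨h2, h1⟩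
  · rintro ⟨h1, h2⟩
    exact ⟨⟨h1.one_lt.le, h2⟩, h1⟩

theorem Pr_eq {t : ℕ} (ht : 2 ≤ t) : Pr t = insert 2 (Pt t) := by
  ext p
  rw [mem_Pr, mem_insert, mem_Pt]
  constructor
  · rintro ⟨h1, h2⟩
    have := h1.two_le
    rcases Nat.lt_or_ge p 3 with h3 | h3
    · left
      omega
    · right
      exact ⟨h1, h3, h2⟩
  · rintro (h | ⟨h1, h2, h3⟩)
    · rw [h]
      exact ⟨Nat.prime_two, ht⟩
    · exact ⟨h1, h3⟩

theorem card_pair {d : ℕ} (hd : 0 < d) : ({0, d} : Finset ℕ).card = 2 :=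
  Finset.card_pair (by omega)

theorem res_dvd {d p : ℕ} (h : p ∣ d) : res {0, d} p = 1 := by
  unfold res
  rw [Finset.image_insert, Finset.image_singleton, Nat.zero_mod, Nat.mod_eq_zero_of_dvd h]
  simp

theorem res_ndvd {d p : ℕ} (h : ¬ p ∣ d) : res {0, d} p = 2 := by
  unfold res
  rw [Finset.image_insert, Finset.image_singleton, Nat.zero_mod]
  refine Finset.card_pair ?_
  intro h0
  exact h (Nat.dvd_of_mod_eq_zero h0.symm)

theorem one_sub_ne {p : ℕ} (hp : 2 ≤ p) : (1 - 1 / (p : ℝ)) ≠ 0 := by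
  have h : (2 : ℝ) ≤ p := by exact_mod_cast hp
  have : 1 / (p : ℝ) < 1 := by
    rw [div_lt_one (by linarith)]
    linarith
  exact (sub_pos.2 this).ne'

theorem lf_dvd {d p : ℕ} (hp : 2 ≤ p) (h : p ∣ d) :
    (1 - (res {0, d} p : ℝ) / p) * (1 - 1 / (p : ℝ))⁻¹ ^ 2 = kk p := by
  rw [res_dvd h, Nat.cast_one, pow_two, ← mul_assoc, mul_inv_cancel₀ (one_sub_ne hp), one_mul]
  rfl

theorem lf_ndvd {d p : ℕ} (hp : 3 ≤ p) (h : ¬ p ∣ d) :
    (1 - (res {0, d} p : ℝ) / p) * (1 - 1 / (p : ℝ))⁻¹ ^ 2 = gg p := by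
  have h' : (3 : ℝ) ≤ p := by exact_mod_cast hp
  have h1 : (p : ℝ) - 1 ≠ 0 := by
    have : 0 < (p : ℝ) - 1 := by linarith
    exact this.ne'
  have h3 : (p : ℝ) ≠ 0 := by
    have : 0 < (p : ℝ) := by linarith
    exact this.ne'
  have h4 : (1 - 1 / (p : ℝ))⁻¹ = p / (p - 1) := by
    have : 1 - 1 / (p : ℝ) = (p - 1) / p := by field_simp
    rw [this, inv_div]
  unfold gg
  rw [res_ndvd h, h4]
  push_cast
  field_simp
  ring

theorem PP_eq {d t : ℕ} (hd0 : 0 < d) (hd : 2 ∣ d) (ht : 2 ≤ t) :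
    PP {0, d} t = 2 * cc t * ∏ p ∈ (Pt t).filter (fun p => p ∣ d), hh p := by
  unfold PP
  rw [card_pair hd0, Pr_eq ht, prod_insert (by rw [mem_Pt]; omega), lf_dvd le_rfl hd, mul_assoc]
  have h2 : kk 2 = 2 := by
    unfold kk
    norm_num
  rw [h2]
  congr 1
  unfold cc
  rw [prod_filter, ← prod_mul_distrib]
  apply prod_congr rfl
  intro p hp
  rw [mem_Pt] at hp
  by_cases h : p ∣ d
  · rw [if_pos h, lf_dvd hp.1.two_le h, kk_eq hp.2.1]
  · rw [if_neg h, lf_ndvd hp.2.1 h, mul_one]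

theorem t_CO2 : S_CO2 := by
  refine ⟨C2, by have := C2_low; linarith, cc_lim, ?_⟩
  intro d hd hd0
  have h2 : 2 ∣ d := hd.two_dvd
  have h3 : Tendsto (fun t => 2 * cc t * ∏ p ∈ d.primeFactors.filter (fun p => 2 < p), hh p) atTop
      (𝓝 (2 * C2 * ∏ p ∈ d.primeFactors.filter (fun p => 2 < p), hh p)) :=
    (cc_lim.const_mul 2).mul_const _
  refine h3.congr' ?_
  filter_upwards [eventually_ge_atTop (d + 2)] with t ht
  rw [PP_eq hd0 h2 (by omega)]
  congr 1
  apply prod_congr _ (fun _ _ => rfl)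
  ext p
  rw [mem_filter, mem_filter, mem_Pt, Nat.mem_primeFactors]
  constructor
  · rintro ⟨⟨h1, h4, _⟩, h5⟩
    exact ⟨⟨h1, h5, (Nat.le_of_dvd hd0 h4).trans (by omega)⟩, h4⟩
  · rintro ⟨⟨h1, h4, _⟩, h5⟩
    exact ⟨⟨h1, h5, by omega⟩, h4⟩

end Pool.Agent.U864.HT
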